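import Mathlib

namespace Pool.Agent.Results.MP_c605fa_an.MaxLength

open Polynomial intervalIntegral

/-- the arc-length of the graph over `[-1, 1]` -/
noncomputable def arc (P : ℝ[X]) : ℝ := ∫ x in (-1 : ℝ)..1, √(1 + (P.derivative.eval x) ^ 2)

theorem ii (P : ℝ[X]) (a b : ℝ) :
    IntervalIntegrable (fun x => √(1 + (P.eval x) ^ 2)) MeasureTheory.volume a b :=
  Continuous.intervalIntegrable (by fun_prop) _ _

theorem cvx {s t : ℝ} (u v : ℝ) (hs : 0 ≤ s) (ht : 0 ≤ t) (h : s + t = 1) :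
    √(1 + (s * u + t * v) ^ 2) ≤ s * √(1 + u ^ 2) + t * √(1 + v ^ 2) := by
  have a := Real.sq_sqrt (show 0 ≤ 1 + u ^ 2 by positivity)
  have b := Real.sq_sqrt (show 0 ≤ 1 + v ^ 2 by positivity)
  have c : 1 + u * v ≤ √(1 + u ^ 2) * √(1 + v ^ 2) := by
    rw [← Real.sqrt_mul (by positivity)]
    exact Real.le_sqrt_of_sq_le (by nlinarith [sq_nonneg (u - v)])
  refine Real.sqrt_le_iff.2 ⟨by positivity, ?_⟩
  have e : (s * √(1 + u ^ 2) + t * √(1 + v ^ 2)) ^ 2 = s ^ 2 * (1 + u ^ 2) + t ^ 2 * (1 + v ^ 2) +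
      2 * (s * t * (√(1 + u ^ 2) * √(1 + v ^ 2))) := by
    linear_combination s ^ 2 * a + t ^ 2 * b
  have e2 : 1 + (s * u + t * v) ^ 2 = s ^ 2 * (1 + u ^ 2) + t ^ 2 * (1 + v ^ 2) +
      2 * (s * t * (1 + u * v)) := by linear_combination (-(s + t) - 1) * h
  linarith [mul_le_mul_of_nonneg_left c (mul_nonneg hs ht)]

theorem step (R : ℝ[X]) {a : ℝ} (h1 : -1 ≤ a) (h2 : a ≤ 1) :
    arc ((X - C a) * R) ≤ max (arc ((X - 1) * R)) (arc ((X + 1) * R)) := by
  have hs : 0 ≤ (1 + a) / 2 := by linarith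
  have ht : 0 ≤ (1 - a) / 2 := by linarith
  have : arc ((X - C a) * R) ≤ (1 + a) / 2 * arc ((X - 1) * R) + (1 - a) / 2 * arc ((X + 1) * R) := by
    unfold arc
    rw [← integral_const_mul, ← integral_const_mul,
      ← integral_add ((ii _ _ _).const_mul _) ((ii _ _ _).const_mul _)]
    refine integral_mono_on (by norm_num) (ii _ _ _)
      (((ii _ _ _).const_mul _).add ((ii _ _ _).const_mul _)) fun x _ => ?_
    convert cvx _ _ hs ht (by ring) using 4
    simp
    ring
  nlinarith [mul_le_mul_of_nonneg_left (le_max_left (arc ((X - 1) * R)) (arc ((X + 1) * R))) hs,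
    mul_le_mul_of_nonneg_left (le_max_right (arc ((X - 1) * R)) (arc ((X + 1) * R))) ht]

theorem ftc (P : ℝ[X]) (a b : ℝ) : ∫ x in a..b, P.derivative.eval x = P.eval b - P.eval a :=
  integral_eq_sub_of_hasDerivAt (fun x _ => P.hasDerivAt x)
    (Continuous.intervalIntegrable (by fun_prop) _ _)

theorem arc_neg (P : ℝ[X]) : arc (-P) = arc P := by simp [arc]

theorem low (n : ℕ) : (2 : ℝ) ^ (n + 1) ≤ arc ((1 - X) ^ (n + 1)) := by
  have := ftc (-(1 - X) ^ (n + 1)) (-1) 1
  rw [← arc_neg]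
  refine le_trans (le_of_eq (by rw [this]; simp; norm_num)) (integral_mono_on (by norm_num)
    (Continuous.intervalIntegrable (by fun_prop) _ _) (ii _ _ _) fun x _ =>
      Real.le_sqrt_of_sq_le (by linarith))

theorem mid (k m : ℕ) : arc ((1 - X) ^ (k + 1) * (1 + X) ^ (m + 1)) ≤ 2 ^ (k + m + 2) := by
  set Q : ℝ[X] := (1 - X) ^ (k + 1) * (1 + X) ^ (m + 1) with hQ
  set c : ℝ := (m - k) / (k + m + 2) with hc
  have p : (0 : ℝ) < k + m + 2 := by positivity
  have c1 : -1 ≤ c := by rw [hc, le_div_iff₀ p]; linarith [(m.cast_nonneg : (0 : ℝ) ≤ m)]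
  have c2 : c ≤ 1 := by rw [hc, div_le_iff₀ p]; linarith [(k.cast_nonneg : (0 : ℝ) ≤ k)]
  have d : ∀ x, Q.derivative.eval x = (1 - x) ^ k * (1 + x) ^ m * ((k + m + 2) * (c - x)) := by
    intro x
    simp only [hQ, hc, derivative_mul, derivative_pow_succ]
    simp
    field_simp
    ring
  have sq : ∀ u : ℝ, 0 ≤ u → √(1 + u ^ 2) ≤ 1 + u := fun u hu =>
    Real.sqrt_le_iff.2 ⟨by positivity, by nlinarith⟩
  have i1 : ∀ (P : ℝ[X]) (a b : ℝ), a ≤ b → (∀ x ∈ Set.Icc a b, 0 ≤ P.derivative.eval x) →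
      ∫ x in a..b, √(1 + (P.derivative.eval x) ^ 2) ≤ b - a + (P.eval b - P.eval a) := by
    intro P a b hab h
    refine (integral_mono_on hab (ii _ _ _) (Continuous.intervalIntegrable
      (by fun_prop : Continuous fun x => 1 + P.derivative.eval x) _ _) fun x hx => sq _ (h x hx)).trans ?_
    rw [integral_add (by simp) (Continuous.intervalIntegrable (by fun_prop) _ _), ftc]
    simp
  have a1 := i1 Q (-1) c c1 fun x hx => by
    have : 0 ≤ 1 - x := by linarith [hx.2]
    have : 0 ≤ 1 + x := by linarith [hx.1]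
    have : 0 ≤ c - x := by linarith [hx.2]
    rw [d]; positivity
  have a2 := i1 (-Q) c 1 c2 fun x hx => by
    have : 0 ≤ 1 - x := by linarith [hx.2]
    have : 0 ≤ 1 + x := by linarith [hx.1]
    have : 0 ≤ x - c := by linarith [hx.1]
    rw [derivative_neg, eval_neg, d, ← mul_neg, ← mul_neg, neg_sub]; positivity
  have a3 : Q.eval c ≤ 2 ^ (k + m) := by
    have b1 : (1 - c) ^ k ≤ 2 ^ k := pow_le_pow_left₀ (by linarith) (by linarith) _
    have b2 : (1 + c) ^ m ≤ 2 ^ m := pow_le_pow_left₀ (by linarith) (by linarith) _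
    have b3 := mul_le_mul b1 b2 (pow_nonneg (by linarith) _) (by positivity)
    have b4 := mul_le_mul b3 (show (1 - c) * (1 + c) ≤ 1 by nlinarith [sq_nonneg c])
      (mul_nonneg (by linarith) (by linarith)) (by positivity)
    simp only [hQ, eval_mul, eval_pow, eval_sub, eval_add, eval_one, eval_X, pow_add]
    linarith
  have a4 : (1 : ℝ) ≤ 2 ^ (k + m) := one_le_pow₀ (by norm_num)
  have e1 : Q.eval 1 = 0 := by simp [hQ]
  have e2 : Q.eval (-1) = 0 := by simp [hQ]
  simp only [derivative_neg, eval_neg, neg_sq] at a2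
  rw [arc, ← integral_add_adjacent_intervals (ii _ _ c) (ii _ _ _), pow_add]
  linarith

theorem sgn (k : ℕ) (R : ℝ[X]) : arc ((X - 1) ^ k * R) = arc ((1 - X) ^ k * R) := by
  rcases neg_one_pow_eq_or ℝ[X] k with h | h
  · rw [← neg_sub, neg_pow, h, one_mul]
  · rw [← neg_sub, neg_pow, h, neg_one_mul, neg_mul, arc_neg]

theorem base (k m : ℕ) : arc ((X - 1) ^ k * (X + 1) ^ m) ≤ arc ((X - 1) ^ (k + m)) := by
  rcases m with _ | m
  · simp
  rw [← mul_one ((X - 1) ^ (k + (m + 1))), sgn, sgn, mul_one, add_comm X]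
  rcases k with _ | k
  · rw [pow_zero, one_mul, zero_add, arc, arc]
    have := integral_comp_neg (a := -1) (b := 1)
      fun x : ℝ => √(1 + (((1 - X : ℝ[X]) ^ (m + 1)).derivative.eval x) ^ 2)
    rw [neg_neg] at this
    rw [← this]
    simp [derivative_pow_succ]
  · exact (mid k m).trans (by
      rw [show k + m + 2 = k + 1 + m + 1 by omega]; exact low (k + 1 + m))

theorem main (l : List ℝ) (h : ∀ a ∈ l, -1 ≤ a ∧ a ≤ 1) (k m : ℕ) :
    arc ((l.map fun a => X - C a).prod * ((X - 1) ^ k * (X + 1) ^ m)) ≤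
      arc ((X - 1) ^ (l.length + k + m)) := by
  induction l generalizing k m with
  | nil => simpa using base k m
  | cons a l ih =>
    have h' : ∀ b ∈ l, -1 ≤ b ∧ b ≤ 1 := fun b hb => h b (List.mem_cons_of_mem _ hb)
    rw [List.map_cons, List.prod_cons, mul_assoc]
    refine (step _ (h a List.mem_cons_self).1 (h a List.mem_cons_self).2).trans (max_le ?_ ?_)
    · rw [List.length_cons, show l.length + 1 + k + m = l.length + (k + 1) + m by omega]
      exact (congrArg arc (by ring)).le.trans (ih h' (k + 1) m)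
    · rw [List.length_cons, show l.length + 1 + k + m = l.length + k + (m + 1) by omega]
      exact (congrArg arc (by ring)).le.trans (ih h' k (m + 1))

theorem result : ∀ (n : ℕ) (x : Fin n → ℝ), (∀ i, -1 ≤ x i ∧ x i ≤ 1) →
    arc (∏ i, (X - C (x i))) ≤ arc ((X - 1) ^ n) := by
  intro n x h
  have := main (List.ofFn x) (fun a ha => by
    obtain ⟨i, rfl⟩ := List.mem_ofFn.1 ha
    exact h i) 0 0
  simpa [List.map_ofFn, List.prod_ofFn] using this

end Pool.Agent.Results.MP_c605fa_an.MaxLength
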